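import Pool.Agent.BEF.Stmts

/-!
# Row LDX of squad BEF (problem MP_be01ff_an): bounds of the approximate solution
-/

set_option autoImplicit false

namespace Pool.Agent.BEF.H62

open Set Filter Topology MeasureTheory
open scoped InnerProductSpace
open Pool.Agent.BE01 Pool.Agent.BEF

noncomputable section

/-- One application of the operator `D` to a leading term and an error of degree 3. -/
theorem step (gli : GliStmt) (gdv : GdvStmt) (dfl : DflStmt) {κ : Type} [Fintype κ] {H X : Type}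
    [NormedAddCommGroup H] [NormedSpace ℝ H] [NormedAddCommGroup X] [NormedSpace ℝ X]
    (T : H →L[ℝ] X) (p : ℕ) (hp : 1 ≤ p) (ω c : ℝ) (F : κ → MvPolynomial κ ℝ)
    (hF : ∀ i, F i ∈ GP κ (2 * p + 1)) (w w' : ℝ → (κ → ℝ) → H) (hw : w ∈ HG κ H 1)
    (hdw : dp w = w') (E : ℝ → (κ → ℝ) → X) (hE : E ∈ GE κ X 3) :
    ∃ E' ∈ GE κ X 3, DF ω F ((fun ψ z => (c • T) (w ψ z)) + E) =
      (fun ψ z => ((ω * c) • T) (w' ψ z)) + E' := by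
  have hw1 : w ∈ GE κ H 1 := (gli κ H H (ContinuousLinearMap.id ℝ H) 1 w).2.2.1 hw
  have hQ1 : (fun ψ z => (c • T) (w ψ z)) ∈ GE κ X 1 := (gli κ H X (c • T) 1 w).2.1 hw1
  have hdv := ((gdv κ H 1 w).2 hw1).2.1
  have hdvw : dv F w ∈ GE κ H 3 := by
    have h := hdv p F hF
    obtain ⟨k, rfl⟩ : ∃ k, p = k + 1 := ⟨p - 1, by omega⟩
    have e : 1 + 2 * (k + 1) = 3 + 2 * k := by ring
    rw [e] at h
    exact (gli κ H H (ContinuousLinearMap.id ℝ H) 3 (dv F w)).2.2.2.1 k h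
  have hadd := (dfl κ X X (ContinuousLinearMap.id ℝ X) 1 3 (fun ψ z => (c • T) (w ψ z)) E ω F F
    hQ1 hE).2.2.1
  have hDE : DF ω F E ∈ GE κ X 3 :=
    (dfl κ X X (ContinuousLinearMap.id ℝ X) 3 3 E E ω F F hE hE).2.2.2.2.2.2.2.2 p hF
  have h8 := (dfl κ H X (c • T) 1 1 w w ω F F hw1 hw1).2.2.2.2.2.2.2.1
  refine ⟨(fun ψ z => (c • T) (dv F w ψ z)) + DF ω F E,
    Submodule.add_mem _ ((gli κ H X (c • T) 3 (dv F w)).2.1 hdvw) hDE, ?_⟩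
  rw [hadd, h8]
  funext ψ z
  show (c • T) (ω • dp w ψ z + dv F w ψ z) + DF ω F E ψ z =
    ((ω * c) • T) (w' ψ z) + ((c • T) (dv F w ψ z) + DF ω F E ψ z)
  rw [hdw, map_add, map_smul]
  have h9 : ((ω * c) • T) (w' ψ z) = ω • (c • T) (w' ψ z) := by
    rw [ContinuousLinearMap.smul_apply, ContinuousLinearMap.smul_apply, smul_smul]
  rw [h9, add_assoc]

/-- Row LDX. -/
theorem ldx (gli : GliStmt) (gdv : GdvStmt) (dfl : DflStmt) (gbd : GbdStmt) (qpw : QpwStmt) :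
    LdxStmt := by
  intro X Y H _ _ _ _ _ _ A W m p ω φ hp hω hEv
  obtain ⟨hq1, hp1, hdq, hdp, -, -, hnorm⟩ := qpw H m φ (fun _ => 0)
  have hn := hnorm hEv.1
  obtain ⟨K, hK0, hK⟩ : ∃ K : ℝ, 0 ≤ K ∧ K ^ 2 = (Fintype.card (Fin m ⊕ Fin m) : ℝ) :=
    ⟨Real.sqrt (Fintype.card (Fin m ⊕ Fin m) : ℝ), Real.sqrt_nonneg _,
      Real.sq_sqrt (Nat.cast_nonneg _)⟩
  have hsum : ∀ z : Fin m ⊕ Fin m → ℝ, ∑ i, z i ^ 2 ≤ K ^ 2 * ‖z‖ ^ 2 := by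
    intro z
    have h1 : ∀ i ∈ (Finset.univ : Finset (Fin m ⊕ Fin m)), z i ^ 2 ≤ ‖z‖ ^ 2 := by
      intro i _
      have h2 := norm_le_pi_norm z i
      rw [Real.norm_eq_abs] at h2
      rw [← sq_abs (z i)]
      exact pow_le_pow_left₀ (abs_nonneg _) h2 2
    refine (Finset.sum_le_sum h1).trans (le_of_eq ?_)
    rw [Finset.sum_const, Finset.card_univ, nsmul_eq_mul, hK]
  have hqb : ∀ ψ z, ‖qw φ ψ z‖ ≤ K * ‖z‖ := by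
    intro ψ z
    apply (sq_le_sq₀ (norm_nonneg _) (by positivity)).1
    have h1 := hn ψ z
    have h2 := hsum z
    have h3 := sq_nonneg ‖pw φ ψ z‖
    rw [mul_pow]
    linarith
  have hpb : ∀ ψ z, ‖pw φ ψ z‖ ≤ K * ‖z‖ := by
    intro ψ z
    apply (sq_le_sq₀ (norm_nonneg _) (by positivity)).1
    have h1 := hn ψ z
    have h2 := hsum z
    have h3 := sq_nonneg ‖qw φ ψ z‖
    rw [mul_pow]
    linarith
  have hdnq : dp (-qw φ) = -pw φ := by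
    funext ψ z
    show deriv (fun s => -(qw φ s z)) ψ = -(pw φ ψ z)
    rw [deriv.fun_neg, ← hdq]
    rfl
  refine ⟨‖W.SX‖ * (ω ^ 3 + ω ^ 4 + ω ^ 5) * K, by positivity, ?_⟩
  intro a0 d F P q R hA
  obtain ⟨q', hq', hqe⟩ := hA.q_eq
  have hPe : P = (fun ψ z => ((ω ^ 2) • W.SX) (qw φ ψ z)) + (fun ψ z => W.SX (q' ψ z)) := by
    funext ψ z
    rw [hA.P_eq, hqe, map_add, map_smul]
    rfl
  have hE0 : (fun ψ z => W.SX (q' ψ z)) ∈ GE (Fin m ⊕ Fin m) X 3 :=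
    (gli (Fin m ⊕ Fin m) H X W.SX 3 q').2.1 hq'
  obtain ⟨E1, hE1, h1⟩ := step gli gdv dfl W.SX p hp ω (ω ^ 2) F hA.F_mem (qw φ) (pw φ) hq1 hdq
    _ hE0
  obtain ⟨E2, hE2, h2⟩ := step gli gdv dfl W.SX p hp ω (ω * ω ^ 2) F hA.F_mem (pw φ) (-qw φ)
    hp1 hdp E1 hE1
  obtain ⟨E3, hE3, h3⟩ := step gli gdv dfl W.SX p hp ω (ω * (ω * ω ^ 2)) F hA.F_mem (-qw φ)
    (-pw φ) (Submodule.neg_mem _ hq1) hdnq E2 hE2
  obtain ⟨C1, hC1, b1⟩ := gbd (Fin m ⊕ Fin m) X 3 E1 hE1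
  obtain ⟨C2, hC2, b2⟩ := gbd (Fin m ⊕ Fin m) X 3 E2 hE2
  obtain ⟨C3, hC3, b3⟩ := gbd (Fin m ⊕ Fin m) X 3 E3 hE3
  refine ⟨C1 + C2 + C3, by positivity, ?_⟩
  intro ψ z hz
  rw [hPe, h1, h2, h3]
  have hz3 : ‖z‖ ^ 3 ≤ ‖z‖ ^ 2 := pow_le_pow_of_le_one (norm_nonneg _) hz (by norm_num)
  have key : ∀ (c : ℝ) (w : H) (e : X) (C : ℝ), 0 ≤ c → ‖w‖ ≤ K * ‖z‖ → 0 ≤ C →
      ‖e‖ ≤ C * ‖z‖ ^ 3 → ‖(c • W.SX) w + e‖ ≤ ‖W.SX‖ * c * K * ‖z‖ + C * ‖z‖ ^ 2 := by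
    intro c w e C hc hw hC he
    have k1 : ‖(c • W.SX) w‖ ≤ ‖W.SX‖ * c * K * ‖z‖ := by
      rw [ContinuousLinearMap.smul_apply, norm_smul, Real.norm_eq_abs, abs_of_nonneg hc]
      calc c * ‖W.SX w‖ ≤ c * (‖W.SX‖ * ‖w‖) :=
            mul_le_mul_of_nonneg_left (W.SX.le_opNorm w) hc
        _ ≤ c * (‖W.SX‖ * (K * ‖z‖)) := by
            apply mul_le_mul_of_nonneg_left _ hc
            exact mul_le_mul_of_nonneg_left hw (norm_nonneg _)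
        _ = ‖W.SX‖ * c * K * ‖z‖ := by ring
    have k2 : ‖e‖ ≤ C * ‖z‖ ^ 2 := he.trans (mul_le_mul_of_nonneg_left hz3 hC)
    exact (norm_add_le _ _).trans (add_le_add k1 k2)
  have a1 := key (ω * ω ^ 2) (pw φ ψ z) (E1 ψ z) C1 (by positivity) (hpb ψ z) hC1 (b1 ψ z hz)
  have a2 := key (ω * (ω * ω ^ 2)) ((-qw φ) ψ z) (E2 ψ z) C2 (by positivity)
    (by
      show ‖-(qw φ ψ z)‖ ≤ K * ‖z‖
      rw [norm_neg]
      exact hqb ψ z) hC2 (b2 ψ z hz)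
  have a3 := key (ω * (ω * (ω * ω ^ 2))) ((-pw φ) ψ z) (E3 ψ z) C3 (by positivity)
    (by
      show ‖-(pw φ ψ z)‖ ≤ K * ‖z‖
      rw [norm_neg]
      exact hpb ψ z) hC3 (b3 ψ z hz)
  show ‖((ω * ω ^ 2) • W.SX) (pw φ ψ z) + E1 ψ z‖ +
    ‖((ω * (ω * ω ^ 2)) • W.SX) ((-qw φ) ψ z) + E2 ψ z‖ +
    ‖((ω * (ω * (ω * ω ^ 2))) • W.SX) ((-pw φ) ψ z) + E3 ψ z‖ ≤ _
  have hfin : ‖W.SX‖ * (ω ^ 3 + ω ^ 4 + ω ^ 5) * K * ‖z‖ + (C1 + C2 + C3) * ‖z‖ ^ 2 =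
      (‖W.SX‖ * (ω * ω ^ 2) * K * ‖z‖ + C1 * ‖z‖ ^ 2) +
      (‖W.SX‖ * (ω * (ω * ω ^ 2)) * K * ‖z‖ + C2 * ‖z‖ ^ 2) +
      (‖W.SX‖ * (ω * (ω * (ω * ω ^ 2))) * K * ‖z‖ + C3 * ‖z‖ ^ 2) := by ring
  rw [hfin]
  exact add_le_add (add_le_add a1 a2) a3

end

end Pool.Agent.BEF.H62
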