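import Pool.Agent.BEF.Stmts

/-!
# Row FRM of squad BEF (problem MP_be01ff_an): the eigenspace and the Fredholm alternative
-/

set_option autoImplicit false

namespace Pool.Agent.BEF.H62

open Set Filter Topology
open scoped InnerProductSpace
open Pool.Agent.BEF

/-- Fredholm alternative in the form used here. -/
theorem frm_aux {H : Type} [NormedAddCommGroup H] [InnerProductSpace ℝ H]
    [CompleteSpace H] (T : H →L[ℝ] H) (hT : IsCompactOperator T)
    (hinj : ∀ u, u = T u → u = 0) (F : H) : ∃ q : H, q - T q = F := by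
  rcases hT.hasEigenvalue_or_mem_resolventSet (μ := (1 : ℝ)) one_ne_zero with h | h
  · exfalso
    obtain ⟨v, hv⟩ := h.exists_hasEigenvector
    have h1 : T v = v := by
      have := hv.apply_eq_smul
      simpa using this
    exact hv.2 (hinj v h1.symm)
  · rw [spectrum.mem_resolventSet_iff, ContinuousLinearMap.isUnit_iff_bijective] at h
    obtain ⟨q, hq⟩ := h.2 F
    refine ⟨q, ?_⟩
    simpa using hq

/-- Row FRM. -/
theorem frm : FrmStmt := by
  intro H _ _ _ S l hS hsym
  have hlS : IsCompactOperator (l • S : H →L[ℝ] H) := by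
    have := hS.smul l
    simpa using this
  obtain ⟨E, hE⟩ : ∃ E : Submodule ℝ H, (E : Set H) = {u | l • S u = u} := by
    refine ⟨{ carrier := {u | l • S u = u}, add_mem' := ?_, zero_mem' := ?_, smul_mem' := ?_ },
      rfl⟩
    · intro u v hu hv
      show l • S (u + v) = u + v
      rw [map_add, smul_add]
      exact congrArg₂ (· + ·) hu hv
    · show l • S 0 = 0
      rw [map_zero, smul_zero]
    · intro c u hu
      show l • S (c • u) = c • u
      rw [map_smul, smul_comm]
      exact congrArg (c • ·) hu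
  have hmem : ∀ u, u ∈ E ↔ l • S u = u := by
    intro u
    rw [← SetLike.mem_coe, hE]
    exact Iff.rfl
  have hclosed : IsClosed (E : Set H) := by
    rw [hE]
    exact isClosed_eq (S.continuous.const_smul l) continuous_id
  have hfd : FiniteDimensional ℝ E := by
    have hV : ∀ x : E, (⇑(l • S : H →L[ℝ] H) ∘ ⇑E.subtypeL) x ∈ E := by
      intro x
      show l • S (x : H) ∈ E
      rw [(hmem (x : H)).1 x.2]
      exact x.2
    have h1 : IsCompactOperator (Set.codRestrict (⇑(l • S : H →L[ℝ] H) ∘ ⇑E.subtypeL) E hV) :=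
      (hlS.comp_clm E.subtypeL).codRestrict hV hclosed
    have h2 : Set.codRestrict (⇑(l • S : H →L[ℝ] H) ∘ ⇑E.subtypeL) E hV = id := by
      funext x
      apply Subtype.ext
      exact (hmem (x : H)).1 x.2
    rw [h2] at h1
    exact FiniteDimensional.of_isCompactOperator_id (𝕜 := ℝ) h1
  have hon : Orthonormal ℝ (fun i => ((stdOrthonormalBasis ℝ E i : E) : H)) :=
    (stdOrthonormalBasis ℝ E).orthonormal.comp_linearIsometry E.subtypeₗᵢ
  have hspan : ∀ u ∈ E, u ∈ Submodule.span ℝ
      (Set.range (fun i => ((stdOrthonormalBasis ℝ E i : E) : H))) := by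
    intro u hu
    have h1 := (stdOrthonormalBasis ℝ E).sum_repr (⟨u, hu⟩ : E)
    have h2 : u = ∑ i, ((stdOrthonormalBasis ℝ E).repr (⟨u, hu⟩ : E) i) •
        ((stdOrthonormalBasis ℝ E i : E) : H) := by
      have h3 := congrArg (fun x : E => (x : H)) h1
      simp only [Submodule.coe_sum, Submodule.coe_smul] at h3
      exact h3.symm
    rw [h2]
    exact Submodule.sum_mem _ fun i _ => Submodule.smul_mem _ _
      (Submodule.subset_span ⟨i, rfl⟩)
  refine ⟨Module.finrank ℝ E, fun i => ((stdOrthonormalBasis ℝ E i : E) : H), hon, ?_, ?_, ?_⟩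
  · intro i
    exact (hmem _).1 (stdOrthonormalBasis ℝ E i : E).2
  · intro u hu
    exact hspan u ((hmem u).2 hu.symm)
  · intro F hF
    have hFE : ∀ u ∈ E, ⟪u, F⟫_ℝ = 0 := by
      intro u hu
      have h1 := hspan u hu
      rw [real_inner_comm]
      refine Submodule.span_induction (p := fun v _ => ⟪F, v⟫_ℝ = 0) ?_ ?_ ?_ ?_ h1
      · rintro _ ⟨i, rfl⟩
        exact hF i
      · exact inner_zero_right F
      · intro x y _ _ hx hy
        rw [inner_add_right, hx, hy, add_zero]
      · intro c x _ hx
        rw [inner_smul_right, hx, mul_zero]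
    let P : H →L[ℝ] H := E.subtypeL.comp E.orthogonalProjectionOnto
    have hP : IsCompactOperator P := by
      have h1 : IsCompactOperator (E.orthogonalProjectionOnto : H →L[ℝ] E) :=
        isCompactOperator_of_locallyCompactSpace_dom (E.orthogonalProjectionOnto : H →L[ℝ] E)
      exact h1.clm_comp E.subtypeL
    have hPm : ∀ u, P u ∈ E := fun u => (E.orthogonalProjectionOnto u).2
    have hPe : ∀ u ∈ E, P u = u := by
      intro u hu
      exact congrArg (fun x : E => (x : H))
        (Submodule.orthogonalProjectionOnto_mem_subspace_eq_self (⟨u, hu⟩ : E))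
    have hT : IsCompactOperator (l • S - P : H →L[ℝ] H) := by
      have := hlS.sub hP
      simpa using this
    have hTa : ∀ u, (l • S - P : H →L[ℝ] H) u = l • S u - P u := fun u => rfl
    have key : ∀ e ∈ E, ∀ u : H, ⟪e, u - (l • S - P : H →L[ℝ] H) u⟫_ℝ = ⟪e, P u⟫_ℝ := by
      intro e he u
      have e1 : ⟪e, l • S u⟫_ℝ = ⟪e, u⟫_ℝ := by
        have e2 : ⟪l • S e, u⟫_ℝ = l * ⟪S e, u⟫_ℝ := by
          rw [inner_smul_left]
          simp
        rw [inner_smul_right, ← hsym e u, ← e2, (hmem e).1 he]
      rw [hTa, inner_sub_right, inner_sub_right, e1]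
      ring
    have hz : ∀ u, (∀ e ∈ E, ⟪e, P u⟫_ℝ = 0) → P u = 0 := by
      intro u h
      exact inner_self_eq_zero.1 (h (P u) (hPm u))
    have hinj : ∀ u, u = (l • S - P : H →L[ℝ] H) u → u = 0 := by
      intro u hu
      have h1 : P u = 0 := by
        apply hz u
        intro e he
        rw [← key e he u, ← hu, sub_self, inner_zero_right]
      have h2 : l • S u = u := by
        have h3 := hTa u
        rw [h1, sub_zero, ← hu] at h3
        exact h3.symm
      rw [← hPe u ((hmem u).2 h2), h1]
    obtain ⟨q, hq⟩ := frm_aux _ hT hinj F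
    have h1 : P q = 0 := by
      apply hz q
      intro e he
      rw [← key e he q, hq]
      exact hFE e he
    refine ⟨q, ?_⟩
    rw [← hq, hTa, h1, sub_zero]

end Pool.Agent.BEF.H62
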